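import Pool.Agent.H24.DBR4

open MeasureTheory Set
open scoped ENNReal NNReal

namespace Pool.Agent.Results.MP_4f6fd6_an.NotComp

open Pool.Agent.H24.DBR (T mu compress rangeNormSq)

/-- `L²` of the circle. -/
def LL : Type := Lp ℂ 2 mu

noncomputable instance i1 : NormedAddCommGroup LL :=
  (Lp.instNormedAddCommGroup : NormedAddCommGroup (Lp ℂ 2 mu))
noncomputable instance i2 : InnerProductSpace ℂ LL :=
  (L2.innerProductSpace : InnerProductSpace ℂ (Lp ℂ 2 mu))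
instance i3 : CompleteSpace LL := (Lp.instCompleteSpace : CompleteSpace (Lp ℂ 2 mu))

/-- An element of `L²` as a function (defined almost everywhere). -/
noncomputable def fn (u : LL) : T → ℂ := (show Lp ℂ 2 mu from u : T → ℂ)

/-- The exponential `e^{2 π i n x}` in `L²`. -/
noncomputable def ex (n : ℤ) : LL := fourierLp (T := 1) 2 n

/-- The Hardy space: the `L²` functions orthogonal to all negative frequencies. -/
noncomputable abbrev HH : Submodule ℂ LL :=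
  (Submodule.span ℂ (range fun n : ℕ => ex (-(n + 1 : ℤ))))ᗮ

/-- `M` is the operator of multiplication by the function `φ` on `L²`. -/
def IsMul (φ : T → ℂ) (M : LL →L[ℂ] LL) : Prop := ∀ u, fn (M u) =ᵐ[mu] fun x => φ x * fn u x

/-- `S` is the positive square root of `I - A B`. -/
def IsDefect {H : Type} [NormedAddCommGroup H] [InnerProductSpace ℂ H] (S A B : H →L[ℂ] H) : Prop :=
  S.IsPositive ∧ ∀ u, S (S u) = u - A (B u)

/-- Capacity in the range space of `S`, with the condition `p |f|` a.e. on a neighbourhood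
of `E`. -/
noncomputable def cap (S : HH →L[ℂ] HH) (p : ℝ → Prop) (E : Set T) : ℝ≥0∞ :=
  ⨅ (f : HH) (U : Set T) (_ : IsOpen U) (_ : E ⊆ U) (_ : ∀ᵐ x ∂mu, x ∈ U → p ‖fn f x‖),
    rangeNormSq S f

theorem result : ∃ (b : T → ℂ) (M N : LL →L[ℂ] LL) (S : HH →L[ℂ] HH), AEStronglyMeasurable b mu ∧
    eLpNorm b ∞ mu = 1 ∧ (∀ n : ℤ, n < 0 → fourierCoeff b n = 0) ∧
    (∀ᵐ x ∂mu, 1 - ‖b x‖ ^ 2 = ‖1 - fourier 1 x‖ ^ 2 / 4) ∧
    IsMul b M ∧ IsMul (fun x => star (b x)) N ∧ IsDefect S (compress HH M) (compress HH N) ∧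
    ∀ A : ℝ≥0, ∃ E : Set T, cap S (1 ≤ ·) E < ∞ ∧ A * cap S (1 ≤ ·) E < cap S (· = 1) E := by
  obtain ⟨b, h1, h2, h3, h4⟩ := Pool.Agent.H24.DBR.notcomp
  have hb1 : ∀ᵐ x ∂mu, ‖b x‖ ≤ 1 := by
    filter_upwards [h3] with x hx
    nlinarith [norm_nonneg (b x), sq_nonneg ‖1 - fourier 1 x‖]
  obtain ⟨d1, d2, -⟩ := Pool.Agent.H24.DBR.defect_facts b hb1
  refine ⟨b, Pool.Agent.H24.DBR.mulOp b, Pool.Agent.H24.DBR.mulOp (star b),
    Pool.Agent.H24.DBR.defect b, Lp.aestronglyMeasurable b, ?_, h1, h3,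
    fun u => Pool.Agent.H24.DBR.mulOp_ae b u, fun u => ?_,
    ⟨Pool.Agent.H24.DBR.defect_pos b, d2⟩, h4⟩
  · rw [← Lp.enorm_def, ← ofReal_norm, h2]; simp
  · filter_upwards [Pool.Agent.H24.DBR.mulOp_ae (star b) u, Lp.coeFn_star b] with x h1 h2
    exact h1.trans (by rw [h2]; rfl)

end Pool.Agent.Results.MP_4f6fd6_an.NotComp
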